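import Pool.Agent.Helper23.QF.Goals
import Pool.Agent.Helper92.Field.Divisor

set_option autoImplicit false

open scoped ENNReal NNReal Matrix

namespace Pool.Agent.Helper38.QF

open Pool.Agent.Helper23.QF

theorem word_pos {a b : ℕ} (ha : 0 < a) (hb : 0 < b) {u : List ℕ} (hu : Word a b u) :
    ∀ x ∈ u, 1 ≤ x := by
  intro x hx
  rcases hu x hx with rfl | rfl <;> omega

theorem entries_le {u : List ℕ} (hu : ∀ x ∈ u, 1 ≤ x) :
    M u 0 1 ≤ M u 0 0 ∧ M u 1 0 ≤ M u 0 0 ∧ M u 1 1 ≤ M u 0 0 := by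
  have h1 := M_entries u hu
  have h2 := M_entries u.reverse (fun x hx => hu x (List.mem_reverse.1 hx))
  rw [M_reverse] at h2
  simp only [Matrix.transpose_apply] at h2
  refine ⟨h2.2.2.2.2.1, h1.2.2.2.2.1, ?_⟩
  by_cases hn : u = []
  · subst hn
    simp [M]
  · have h3 := h1.2.2.2.2.2
    rw [if_neg hn] at h3
    linarith [h2.2.2.2.2.1]

theorem det_cases (u : List ℕ) : (M u).det = 1 ∨ (M u).det = -1 := by
  rw [M_det]
  rcases Nat.even_or_odd u.length with h | h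
  · left; exact h.neg_one_pow
  · right; exact h.neg_one_pow

theorem tr_ge {a : ℕ} (ha : 0 < a) {u : List ℕ} (hu : ∀ x ∈ u, 1 ≤ x) : 3 ≤ tr a u := by
  have h1 := M_entries u hu
  obtain ⟨e1, e2, e3, e4, _, _⟩ := h1
  have ha' : (1 : ℤ) ≤ a := by exact_mod_cast ha
  rcases det_cases u with h | h
  · have h2 := tr_sub a u
    rw [h] at h2
    have h3 : 1 ≤ (a : ℤ) * M u 0 0 + 2 * M u 0 1 := by nlinarith
    have h4 : 1 ≤ (a : ℤ) * M u 0 0 + 2 * M u 1 0 := by nlinarith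
    nlinarith
  · have h2 := tr_add a u
    rw [h] at h2
    have h3 : 1 ≤ (a : ℤ) ^ 2 * M u 0 0 + 2 * a * M u 0 1 + 2 * a * M u 1 0 + 4 * M u 1 1 := by
      have g1 : 1 ≤ (a : ℤ) ^ 2 * M u 0 0 := by nlinarith
      have g2 : 0 ≤ 2 * (a : ℤ) * M u 0 1 := by positivity
      have g3 : 0 ≤ 2 * (a : ℤ) * M u 1 0 := by positivity
      linarith
    nlinarith

theorem tr_le {a : ℕ} {u : List ℕ} (hu : ∀ x ∈ u, 1 ≤ x) :
    tr a u ≤ (((a : ℤ) + 2) ^ 2 + 2) * M u 0 0 ^ 2 := by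
  have h1 := M_entries u hu
  obtain ⟨e1, e2, e3, e4, _, _⟩ := h1
  obtain ⟨f1, f2, f3⟩ := entries_le hu
  have h2 := tr_add a u
  have ha' : (0 : ℤ) ≤ a := by positivity
  have h3 : (a : ℤ) ^ 2 * M u 0 0 + 2 * a * M u 0 1 + 2 * a * M u 1 0 + 4 * M u 1 1 ≤
      ((a : ℤ) + 2) ^ 2 * M u 0 0 := by nlinarith
  have h4 : M u 0 0 * ((a : ℤ) ^ 2 * M u 0 0 + 2 * a * M u 0 1 + 2 * a * M u 1 0
      + 4 * M u 1 1) ≤ M u 0 0 * (((a : ℤ) + 2) ^ 2 * M u 0 0) :=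
    mul_le_mul_of_nonneg_left h3 (by linarith)
  rcases det_cases u with h | h
  · rw [h] at h2; nlinarith
  · rw [h] at h2; nlinarith

theorem exists_df (t : ℕ) : ∃ d f : ℕ, 3 ≤ t → (f ^ 2 * d = t ^ 2 - 4 ∧ Squarefree d ∧ 0 < f ∧
    2 ≤ d ∧ t ^ 2 = d * f ^ 2 + 4) := by
  obtain ⟨d, f, h1, h2⟩ := Nat.sq_mul_squarefree (t ^ 2 - 4)
  refine ⟨d, f, fun ht => ?_⟩
  have h3 : 9 ≤ t ^ 2 := by nlinarith
  have hf : 0 < f := by
    rcases Nat.eq_zero_or_pos f with h | h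
    · rw [h] at h1; omega
    · exact h
  have h4 : t ^ 2 = d * f ^ 2 + 4 := by
    have : f ^ 2 * d = d * f ^ 2 := by ring
    omega
  refine ⟨h1, h2, hf, ?_, h4⟩
  by_contra hd
  have hd2 : d = 0 ∨ d = 1 := by omega
  rcases hd2 with hd | hd
  · rw [hd] at h4; omega
  · rw [hd, one_mul] at h4
    have h5 : f < t := by nlinarith
    have h6 : f + 2 ≤ t := by
      by_contra h7
      have h8 : t = f + 1 := by omega
      rw [h8] at h4
      have : (f + 1) ^ 2 = f ^ 2 + 2 * f + 1 := by ring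
      omega
    nlinarith

theorem local_sq (h7 : GPADIC) {p m : ℕ} [Fact p.Prime] (hp : p ∣ m) {D0 z k : ℤ} {d f : ℕ}
    (hf : 0 < f) (h : D0 * ((d : ℤ) * f ^ 2) = z ^ 2 * (1 + 8 * m * k)) :
    IsSquare (((D0 * d : ℤ)) : ℚ_[p]) := by
  obtain ⟨m1, rfl⟩ := hp
  obtain ⟨y, hy⟩ := h7 p (m1 * k)
  have hf' : (f : ℚ_[p]) ≠ 0 := by exact_mod_cast hf.ne'
  have h1 : ((D0 * ((d : ℤ) * f ^ 2) : ℤ) : ℚ_[p]) =
      ((z ^ 2 * (1 + 8 * (p * m1 : ℕ) * k) : ℤ) : ℚ_[p]) := by rw [h]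
  refine ⟨z * y / f, ?_⟩
  push_cast at h1 hy ⊢
  field_simp
  linear_combination h1 + (z : ℚ_[p]) ^ 2 * hy

theorem count_main (h2 : GMULT) (h3 : GGAP) {a b T : ℕ} (ha : 0 < a) (hb : 0 < b)
    (S : Finset (List ℕ)) (hS : ∀ u ∈ S, Word a b u ∧ 3 ≤ tr a u ∧ tr a u ≤ T)
    (dd ff : ℕ → ℕ) (hdf : ∀ t, 3 ≤ t → t ^ 2 = dd t * ff t ^ 2 + 4) (n1 n2 : ℕ)
    (hn1 : ∀ t, 3 ≤ t → t ≤ T → 2 * ((t + 2).divisors.card * (t - 2).divisors.card) ≤ n1)
    (hn2 : (T : ℝ) < (3 / 2) ^ (n2 + 1)) :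
    S.card ≤ n1 * (n2 * (S.image (fun u => dd (tr a u).toNat)).card) := by
  rcases S.eq_empty_or_nonempty with rfl | ⟨u1, hu1⟩
  · simp
  have hT : 3 ≤ T := by
    have := hS u1 hu1
    omega
  have e1 : S.card ≤ n1 * (S.image (fun u => (tr a u).toNat)).card := by
    refine Finset.card_le_mul_card_image _ _ fun t ht => ?_
    obtain ⟨u, hu, rfl⟩ := Finset.mem_image.1 ht
    obtain ⟨_, g2, g3⟩ := hS u hu
    refine (h2 a b (tr a u).toNat _ ha hb (by omega) ?_).trans (hn1 _ (by omega) (by omega))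
    intro v hv
    obtain ⟨hv1, hv2⟩ := Finset.mem_filter.1 hv
    refine ⟨(hS v hv1).1, ?_⟩
    have := hS v hv1
    omega
  have e2 : (S.image (fun u => (tr a u).toNat)).card ≤
      n2 * ((S.image (fun u => (tr a u).toNat)).image dd).card := by
    refine Finset.card_le_mul_card_image _ _ fun d hd => ?_
    have g := h3 d T ((S.image (fun u => (tr a u).toNat)).filter fun t => dd t = d) (by omega) (by
      intro t ht
      obtain ⟨ht1, ht2⟩ := Finset.mem_filter.1 ht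
      obtain ⟨u, hu, rfl⟩ := Finset.mem_image.1 ht1
      obtain ⟨_, g2, g3⟩ := hS u hu
      refine ⟨by omega, by omega, ff (tr a u).toNat, ?_⟩
      rw [← ht2]
      exact hdf _ (by omega))
    have g' := g.trans_lt hn2
    have g'' := (pow_lt_pow_iff_right₀ (by norm_num : (1 : ℝ) < 3 / 2)).1 g'
    omega
  rw [Finset.image_image] at e2
  exact e1.trans (Nat.mul_le_mul_left _ e2)

theorem asym (c C C1 s s' : ℝ) (hc : 0 < c) (hC : 0 < C) (hC1 : 0 < C1) (hs : 0 ≤ s)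
    (hss : s < s') : ∃ T0 : ℝ, ∀ T : ℝ, T0 ≤ T → 1 ≤ T →
      (T + 1) ^ s * ((2 * (C * (T + 2) ^ ((s' - s) / 8)) ^ 2) * (Real.log T / Real.log (3 / 2))) ≤
        c * (T / C1) ^ s' := by
  set ε := (s' - s) / 8 with hε
  set δ := (s' - s) / 4 with hδ
  have hε0 : 0 < ε := by rw [hε]; linarith
  have hδ0 : 0 < δ := by rw [hδ]; linarith
  have hl : 0 < Real.log (3 / 2) := Real.log_pos (by norm_num)
  set A := 2 ^ s * (2 * C ^ 2 * (3 ^ ε) ^ 2) * (1 / (δ * Real.log (3 / 2))) with hA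
  obtain ⟨T0, hT0⟩ := Filter.eventually_atTop.1
    ((tendsto_rpow_atTop (show 0 < (s' - s) / 2 by linarith)).eventually_ge_atTop
      (A * C1 ^ s' / c))
  refine ⟨T0, fun T hT h1 => ?_⟩
  have h2 := hT0 T hT
  have hTp : 0 < T := by linarith
  have k1 : (T + 1) ^ s ≤ 2 ^ s * T ^ s := by
    rw [← Real.mul_rpow (by norm_num) hTp.le]
    exact Real.rpow_le_rpow (by linarith) (by linarith) hs
  have k2 : (T + 2) ^ ε ≤ 3 ^ ε * T ^ ε := by
    rw [← Real.mul_rpow (by norm_num) hTp.le]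
    exact Real.rpow_le_rpow (by linarith) (by linarith) hε0.le
  have k3 : Real.log T ≤ T ^ δ / δ := Real.log_le_rpow_div hTp.le hδ0
  have k4 : 0 ≤ Real.log T := Real.log_nonneg h1
  have k5 : 2 * (C * (T + 2) ^ ε) ^ 2 ≤ 2 * (C * (3 ^ ε * T ^ ε)) ^ 2 := by
    have : 0 ≤ C * (T + 2) ^ ε := by positivity
    gcongr
  have k6 : Real.log T / Real.log (3 / 2) ≤ (T ^ δ / δ) / Real.log (3 / 2) := by gcongr
  have k7 : (T + 1) ^ s * ((2 * (C * (T + 2) ^ ε) ^ 2) * (Real.log T / Real.log (3 / 2))) ≤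
      (2 ^ s * T ^ s) * ((2 * (C * (3 ^ ε * T ^ ε)) ^ 2) * ((T ^ δ / δ) / Real.log (3 / 2))) := by
    have n1 : 0 ≤ (T + 1) ^ s := by positivity
    have n2 : 0 ≤ 2 * (C * (T + 2) ^ ε) ^ 2 := by positivity
    have n3 : 0 ≤ Real.log T / Real.log (3 / 2) := by positivity
    refine mul_le_mul k1 ?_ (mul_nonneg n2 n3) (by positivity)
    exact mul_le_mul k5 k6 n3 (by positivity)
  refine k7.trans ?_
  have k8 : (2 ^ s * T ^ s) * ((2 * (C * (3 ^ ε * T ^ ε)) ^ 2) *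
      ((T ^ δ / δ) / Real.log (3 / 2))) = A * (T ^ s * (T ^ ε) ^ 2 * T ^ δ) := by
    rw [hA]
    field_simp
  have k9 : T ^ s * (T ^ ε) ^ 2 * T ^ δ * T ^ ((s' - s) / 2) = T ^ s' := by
    rw [← Real.rpow_natCast, ← Real.rpow_mul hTp.le, ← Real.rpow_add hTp, ← Real.rpow_add hTp,
      ← Real.rpow_add hTp]
    congr 1
    rw [hε, hδ]
    push_cast
    ring
  rw [k8, Real.div_rpow hTp.le hC1.le, ← k9]
  have k10 : 0 < C1 ^ s' := by positivity
  have k11 : A ≤ c * T ^ ((s' - s) / 2) / C1 ^ s' := by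
    rw [le_div_iff₀ k10]
    rw [div_le_iff₀ hc] at h2
    linarith
  have k12 : 0 ≤ T ^ s * (T ^ ε) ^ 2 * T ^ δ := by positivity
  calc A * (T ^ s * (T ^ ε) ^ 2 * T ^ δ) ≤
      (c * T ^ ((s' - s) / 2) / C1 ^ s') * (T ^ s * (T ^ ε) ^ 2 * T ^ δ) :=
        mul_le_mul_of_nonneg_right k11 k12
    _ = c * (T ^ s * (T ^ ε) ^ 2 * T ^ δ * T ^ ((s' - s) / 2) / C1 ^ s') := by ring

theorem gFINAL (h1 : GFIELD) (h2 : GMULT) (h3 : GGAP) (h4 : GCOUNT) (h5 : GPIG) (h6 : GLOCAL)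
    (h7 : GPADIC) (h8 : GDIM) : GFINAL := by
  intro a b s m D0 ha hb hab hm hD0 hdim
  obtain ⟨s', hs1, hs2⟩ := ENNReal.lt_iff_exists_nnreal_btwn.1 hdim
  have hss : s < s' := ENNReal.coe_lt_coe.1 hs1
  have hssR : (s : ℝ) < s' := by exact_mod_cast hss
  have hs0 : (0 : ℝ) ≤ s := s.2
  have hs'0 : (0 : ℝ) < s' := lt_of_le_of_lt hs0 hssR
  obtain ⟨n, hn⟩ := h8 a b s' ha hb hs2
  have hcount := h4 a b n s' ha hb hab hs'0 hn
  obtain ⟨m', u0, hm', hu0, hloc⟩ := h6 a b m D0 ha hb hab hm hD0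
  obtain ⟨c, hc, R0, hR0, hS⟩ := h5 a b s' ha hb hs'0 hcount m' u0 hm' hu0
  obtain ⟨C, hC, hdiv⟩ := Pool.Agent.Helper92.Field.divisor_bound
    (show 0 < ((s' : ℝ) - s) / 8 by linarith)
  set C1 : ℝ := ((a : ℝ) + 2) ^ 2 + 2 with hC1
  have hC1p : 0 < C1 := by positivity
  obtain ⟨T0, hT0⟩ := asym c C C1 s s' hc hC hC1p hs0 hssR
  choose dd ff hdf using exists_df
  refine ⟨(⌈max T0 (max 3 (C1 * R0 ^ 2))⌉₊) ^ 2, fun X hX => ?_⟩
  set T := Nat.sqrt X with hTd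
  have hTge : ⌈max T0 (max 3 (C1 * R0 ^ 2))⌉₊ ≤ T := by
    rw [hTd, Nat.le_sqrt']
    exact hX
  have hTR : max T0 (max 3 (C1 * R0 ^ 2)) ≤ (T : ℝ) :=
    (Nat.le_ceil _).trans (by exact_mod_cast hTge)
  have hT1 : T0 ≤ (T : ℝ) := (le_max_left _ _).trans hTR
  have hT2 : (3 : ℝ) ≤ (T : ℝ) := (le_max_left _ _).trans ((le_max_right _ _).trans hTR)
  have hT3 : C1 * R0 ^ 2 ≤ (T : ℝ) := (le_max_right _ _).trans ((le_max_right _ _).trans hTR)
  have hT3N : 3 ≤ T := by exact_mod_cast hT2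
  have hTpos : (0 : ℝ) < T := by linarith
  set R := Real.sqrt ((T : ℝ) / C1) with hR
  have hRsq : R ^ 2 = (T : ℝ) / C1 := Real.sq_sqrt (by positivity)
  have hR1 : R0 ≤ R := by
    rw [hR]
    refine Real.le_sqrt_of_sq_le ?_
    rw [le_div_iff₀ hC1p]
    linarith
  have hRpos : 0 < R := by linarith
  obtain ⟨S, hS1, hS2⟩ := hS R hR1
  have hSt : ∀ u ∈ S, Word a b u ∧ 3 ≤ tr a u ∧ tr a u ≤ T := by
    intro u hu
    obtain ⟨g1, g2, _⟩ := hS1 u hu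
    have g3 := word_pos ha hb g1
    refine ⟨g1, tr_ge ha g3, ?_⟩
    have g4 := tr_le (a := a) g3
    have g5 : ((tr a u : ℤ) : ℝ) ≤ C1 * (K u : ℝ) ^ 2 := by
      have g6 : ((tr a u : ℤ) : ℝ) ≤ (((((a : ℤ) + 2) ^ 2 + 2) * M u 0 0 ^ 2 : ℤ) : ℝ) := by
        exact_mod_cast g4
      refine g6.trans (le_of_eq ?_)
      rw [hC1, K]
      push_cast
      ring
    have g7 : (0 : ℝ) ≤ (K u : ℝ) := by
      have := (M_entries u g3).1
      have : (0 : ℤ) ≤ K u := by unfold K; linarith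
      exact_mod_cast this
    have g8 : C1 * (K u : ℝ) ^ 2 ≤ (T : ℝ) := by
      have : (K u : ℝ) ^ 2 ≤ R ^ 2 := pow_le_pow_left₀ g7 g2 2
      rw [hRsq] at this
      calc C1 * (K u : ℝ) ^ 2 ≤ C1 * ((T : ℝ) / C1) := by gcongr
        _ = T := by field_simp
    exact_mod_cast g5.trans g8
  -- the numbers of the fibres
  set B1 : ℝ := 2 * (C * ((T : ℝ) + 2) ^ (((s' : ℝ) - s) / 8)) ^ 2 with hB1
  set B2 : ℝ := Real.log T / Real.log (3 / 2) with hB2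
  have hl : 0 < Real.log (3 / 2) := Real.log_pos (by norm_num)
  have hB1p : 0 < B1 := by positivity
  have hlogT : 0 < Real.log T := Real.log_pos (by linarith)
  have hB2p : 0 < B2 := by positivity
  have hn1 : ∀ t, 3 ≤ t → t ≤ T →
      2 * ((t + 2).divisors.card * (t - 2).divisors.card) ≤ ⌊B1⌋₊ := by
    intro t ht1 ht2
    refine Nat.le_floor ?_
    have q1 := hdiv (t + 2) (by omega)
    have q2 := hdiv (t - 2) (by omega)
    have q3 : ((t + 2 : ℕ) : ℝ) ≤ (T : ℝ) + 2 := by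
      have : ((t + 2 : ℕ) : ℝ) = (t : ℝ) + 2 := by push_cast; ring
      rw [this]
      have : (t : ℝ) ≤ T := by exact_mod_cast ht2
      linarith
    have q4 : ((t - 2 : ℕ) : ℝ) ≤ (T : ℝ) + 2 := by
      refine le_trans ?_ q3
      exact_mod_cast (by omega : t - 2 ≤ t + 2)
    have hε0 : 0 ≤ ((s' : ℝ) - s) / 8 := by linarith
    have q5 : ((t + 2).divisors.card : ℝ) ≤ C * ((T : ℝ) + 2) ^ (((s' : ℝ) - s) / 8) :=
      q1.trans (mul_le_mul_of_nonneg_left (Real.rpow_le_rpow (by positivity) q3 hε0) hC.le)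
    have q6 : ((t - 2).divisors.card : ℝ) ≤ C * ((T : ℝ) + 2) ^ (((s' : ℝ) - s) / 8) :=
      q2.trans (mul_le_mul_of_nonneg_left (Real.rpow_le_rpow (by positivity) q4 hε0) hC.le)
    push_cast
    rw [hB1]
    have q7 : ((t + 2).divisors.card : ℝ) * ((t - 2).divisors.card : ℝ) ≤
        (C * ((T : ℝ) + 2) ^ (((s' : ℝ) - s) / 8)) * (C * ((T : ℝ) + 2) ^ (((s' : ℝ) - s) / 8)) :=
      mul_le_mul q5 q6 (by positivity) (by positivity)
    nlinarith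
  have hn2 : (T : ℝ) < (3 / 2) ^ (⌊B2⌋₊ + 1) := by
    have q1 : B2 < (⌊B2⌋₊ : ℝ) + 1 := Nat.lt_floor_add_one B2
    rw [hB2, div_lt_iff₀ hl] at q1
    have q2 : Real.log T < Real.log ((3 / 2) ^ (⌊B2⌋₊ + 1)) := by
      rw [Real.log_pow]
      push_cast
      exact q1
    exact (Real.log_lt_log_iff hTpos (by positivity)).1 q2
  have hcm := count_main h2 h3 ha hb S hSt dd ff (fun t ht => (hdf t ht).2.2.2.2) _ _ hn1 hn2
  -- the set of the fields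
  set 𝒟 : Set ℕ := {d : ℕ | d ≤ X ∧ 2 ≤ d ∧ Squarefree d ∧ Good a b d ∧
          ∀ p : ℕ, ∀ _ : Fact p.Prime, p ∣ m → IsSquare (((D0 * d : ℤ)) : ℚ_[p])} with h𝒟
  have hfin : 𝒟.Finite := (Set.finite_Iic X).subset fun d hd => hd.1
  have hsub : ((S.image (fun u => dd (tr a u).toNat) : Finset ℕ) : Set ℕ) ⊆ 𝒟 := by
    intro d hd
    rw [Finset.mem_coe, Finset.mem_image] at hd
    obtain ⟨u, hu, rfl⟩ := hd
    obtain ⟨g1, g2, g3⟩ := hSt u hu
    obtain ⟨t, ht⟩ : ∃ t : ℕ, (t : ℤ) = tr a u := ⟨(tr a u).toNat, by omega⟩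
    have ht' : (tr a u).toNat = t := by omega
    rw [ht']
    have ht3 : 3 ≤ t := by omega
    have htT : t ≤ T := by omega
    obtain ⟨q1, q2, q3, q4, q5⟩ := hdf t ht3
    have q6 : (dd t : ℤ) * (ff t : ℤ) ^ 2 = (M (pal a u)).trace ^ 2 - 4 := by
      have : (M (pal a u)).trace = (t : ℤ) := ht.symm
      rw [this]
      have q7 : ((t ^ 2 : ℕ) : ℤ) = ((dd t * ff t ^ 2 + 4 : ℕ) : ℤ) := by rw [q5]
      push_cast at q7
      linarith
    refine ⟨?_, q4, q2, ?_, ?_⟩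
    · have r1 : dd t ≤ dd t * ff t ^ 2 := Nat.le_mul_of_pos_right _ (by positivity)
      have r2 : t ^ 2 ≤ T ^ 2 := Nat.pow_le_pow_left htT 2
      have r3 : T ^ 2 ≤ X := by rw [hTd]; exact Nat.sqrt_le' X
      omega
    · refine h1 a b (pal a u) (dd t) (ff t) ha hb ?_ ?_ ?_ q3 q6
      · intro x hx
        simp only [pal, List.mem_append, List.mem_reverse, List.mem_singleton] at hx
        rcases hx with ((hx | hx) | hx) | hx
        · exact g1 x hx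
        · exact Or.inl hx
        · exact g1 x hx
        · exact Or.inl hx
      · simp [pal]
      · simp only [pal, List.length_append, List.length_reverse, List.length_singleton]
        exact ⟨u.length + 1, by ring⟩
    · intro p hp hpm
      obtain ⟨z, k, _, hzk⟩ := hloc u g1 (hS1 u hu).2.2
      refine local_sq h7 hpm q3 (z := z) (k := k) ?_
      rw [q6, ← hzk]
      rfl
  have hcard : (S.image (fun u => dd (tr a u).toNat)).card ≤ 𝒟.ncard := by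
    rw [← Set.ncard_coe_finset]
    exact Set.ncard_le_ncard hsub hfin
  -- the estimate
  have hmain : c * ((T : ℝ) / C1) ^ (s' : ℝ) ≤ B1 * (B2 * (𝒟.ncard : ℝ)) := by
    have r1 : R ^ (2 * (s' : ℝ)) = ((T : ℝ) / C1) ^ (s' : ℝ) := by
      rw [Real.rpow_mul hRpos.le, ← hRsq]
      norm_num
    rw [← r1]
    refine hS2.trans ?_
    have r2 : (S.card : ℝ) ≤ (⌊B1⌋₊ : ℝ) * ((⌊B2⌋₊ : ℝ) *
        ((S.image (fun u => dd (tr a u).toNat)).card : ℝ)) := by exact_mod_cast hcm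
    refine r2.trans ?_
    have r3 : (⌊B1⌋₊ : ℝ) ≤ B1 := Nat.floor_le hB1p.le
    have r4 : (⌊B2⌋₊ : ℝ) ≤ B2 := Nat.floor_le hB2p.le
    have r5 : ((S.image (fun u => dd (tr a u).toNat)).card : ℝ) ≤ (𝒟.ncard : ℝ) := by
      exact_mod_cast hcard
    gcongr
  have hT1' : (1 : ℝ) ≤ T := by linarith
  have has := hT0 T hT1 hT1'
  have r6 : ((T : ℝ) + 1) ^ (s : ℝ) * (B1 * B2) ≤ (𝒟.ncard : ℝ) * (B1 * B2) := by
    calc ((T : ℝ) + 1) ^ (s : ℝ) * (B1 * B2) ≤ c * ((T : ℝ) / C1) ^ (s' : ℝ) := has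
      _ ≤ B1 * (B2 * (𝒟.ncard : ℝ)) := hmain
      _ = (𝒟.ncard : ℝ) * (B1 * B2) := by ring
  have r7 : ((T : ℝ) + 1) ^ (s : ℝ) ≤ (𝒟.ncard : ℝ) :=
    le_of_mul_le_mul_right r6 (by positivity)
  refine le_trans ?_ r7
  have r8 : (X : ℝ) ≤ ((T : ℝ) + 1) ^ 2 := by
    have : X < (T + 1) ^ 2 := by
      have := Nat.lt_succ_sqrt' X
      rw [hTd]
      simpa using this
    exact_mod_cast this.le
  calc (X : ℝ) ^ ((s : ℝ) / 2) ≤ (((T : ℝ) + 1) ^ 2) ^ ((s : ℝ) / 2) :=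
        Real.rpow_le_rpow (by positivity) r8 (by linarith)
    _ = ((T : ℝ) + 1) ^ (s : ℝ) := by
        rw [← Real.rpow_natCast, ← Real.rpow_mul (by positivity)]
        congr 1
        push_cast
        ring

end Pool.Agent.Helper38.QF
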